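import Pool.Agent.MWA.StmtsP

/-!
# Rows DGA and OD1 of block MWA (helper49)
-/

namespace Pool.Agent.MWA.H49

open Pool.Agent.Helper14_MV Pool.Agent.Helper2_MV Pool.Agent.MVO Pool.Agent.MWL Pool.Agent.MWS

/-- row DGA -/
theorem dga (hC : CmnStmt) (hO : Od1Stmt) : DgaStmt := by
  intro ρ σ τ hρ hτ u v h1 h2
  refine hC (psi ρ σ τ) ?_ u v (hO ρ σ τ u v h1 h2)
  intro hn
  exact hn (FIC.le_sup_left _ _ _ _ ⟨not_not.1 hρ, not_not.1 hτ⟩)

theorem pow_of (p : ℕ) : FreeMonoid.ofList (List.replicate p (0 : ℕ)) =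
    (Pool.Agent.Helper14_MV.lx : Word) ^ p := by
  induction p with
  | zero => rfl
  | succ p ih =>
    rw [List.replicate_succ, FreeMonoid.ofList_cons, ih, pow_succ']
    rfl

/-- row OD1 -/
theorem od1 : Od1Stmt := by
  intro ρ σ τ u v h1 h2 c
  have h1' : (FIC.sup σ ρ).r (FreeMonoid.ofList u) (FreeMonoid.ofList v) :=
    FIC.sup_le (FIC.le_sup_right σ ρ) (FIC.le_sup_left σ ρ) _ _ h1
  have h2' : (FIC.sup σ τ).r (FreeMonoid.ofList u) (FreeMonoid.ofList v) :=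
    FIC.le_sup_right σ τ _ _ h2
  have h3 := Pool.Agent.Helper4_MV.one_distrib (i := c) h1' h2'
  have h4 : τ.r _ _ := Pool.Agent.Helper4_MV.one_letter (i := c) h2
  have h5 : (FIC.sup (FIC.inf ρ τ) σ).r _ _ :=
    FIC.sup_le (FIC.le_sup_right (FIC.inf ρ τ) σ) (FIC.le_sup_left (FIC.inf ρ τ) σ) _ _ h3
  have h6 := Pool.Agent.Helper4_MV.one_distrib (i := 0) h5
    (FIC.le_sup_right (FIC.inf ρ τ) τ _ _ h4)
  have hc : ∀ p : ℕ, Pool.Agent.Helper4_MV.cnt 0 (lx ^ p) = p := by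
    intro p
    simp [lx]
  rw [hc, hc] at h6
  unfold RR
  rw [pow_of, pow_of]
  exact h6

end Pool.Agent.MWA.H49
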